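import Pool.Agent.helper55.ZI.Spec2

set_option autoImplicit false

namespace Pool.Agent.helper85.ZI

open Pool.Agent.ZI

universe u

theorem QUO : QUO_stmt.{u} := by
  intro R R' _ _ π hπ S hS
  refine ⟨?_, ?_, ?_⟩
  · intro m n hmn x hx
    obtain ⟨y, hy, rfl⟩ := hx
    exact ⟨y, hS.mono hmn hy, rfl⟩
  · intro n
    have := hS.ss n
    let f : S n →+* (S n).map π :=
      (π.comp (S n).subtype).codRestrict ((S n).map π) (fun y => ⟨y, y.2, rfl⟩)
    refine RingHom.isSemisimpleRing_of_surjective f ?_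
    rintro ⟨x, y, hy, rfl⟩
    exact ⟨⟨y, hy⟩, rfl⟩
  · intro r
    obtain ⟨s, rfl⟩ := hπ r
    obtain ⟨n, hn⟩ := hS.cov s
    exact ⟨n, s, hn, rfl⟩

end Pool.Agent.helper85.ZI
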